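import Pool.Agent.PDN.Stmts

/-!
# Row NEC: necessity for the sequence `seq a`
-/

set_option autoImplicit false

namespace Pool.Agent.PDN.H17

open Pool.Agent.PDN

/-- the large entries as a family -/
def bb {n : ℕ} (a : Fin n → ℕ) : Fin n ⊕ Fin n ⊕ Fin 2 → ℕ :=
  Sum.elim (fun i => Mc n * (Kc a + a i))
    (Sum.elim (fun _ => Mc n * Kc a) (fun _ => Mc n * ((2 * n + 1) * Kc a)))

theorem map_bb {n : ℕ} (a : Fin n → ℕ) : Finset.univ.val.map (bb a) = big a := by
  have h1 : ∀ (α β : Type) [Fintype α] [Fintype β] (f : α ⊕ β → ℕ),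
      Finset.univ.val.map f = Finset.univ.val.map (fun x => f (Sum.inl x)) +
        Finset.univ.val.map (fun x => f (Sum.inr x)) := by
    intro α β _ _ f
    rw [← Finset.univ_disjSum_univ, Finset.val_disjSum, Multiset.disjSum, Multiset.map_add,
      Multiset.map_map, Multiset.map_map]
    rfl
  rw [h1, h1]
  unfold big bb
  simp only [Sum.elim_inl, Sum.elim_inr, Multiset.map_const']
  rw [Finset.card_val, Finset.card_val, Finset.card_univ, Finset.card_univ, Fintype.card_fin,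
    Fintype.card_fin, add_assoc]

/-- NEC -/
theorem nec (gne : GneStmt) (ari : AriStmt) : NecStmt := by
  intro n a h
  have hM : Mc n = 12 * (n + 1) ^ 2 := rfl
  have hM1 : 12 ≤ Mc n := by
    rw [hM]
    nlinarith [Nat.one_le_pow 2 (n + 1) (by omega)]
  have hK : 1 ≤ Kc a := by
    unfold Kc
    omega
  have h12 : ∀ i, 12 ∣ bb a i := by
    intro i
    have h0 : 12 ∣ Mc n := ⟨_, hM⟩
    rcases i with i | i | i
    · exact h0.mul_right _
    · exact h0.mul_right _
    · exact h0.mul_right _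
  have hbig : ∀ i, 12 ≤ bb a i := by
    intro i
    have h0 : ∀ c, 1 ≤ c → 12 ≤ Mc n * c := fun c hc => by nlinarith
    rcases i with i | i | i
    · exact h0 _ (by omega)
    · exact h0 _ hK
    · exact h0 _ (Nat.mul_pos (by omega) hK)
  have hcard : Fintype.card (Fin n ⊕ Fin n ⊕ Fin 2) = 2 * n + 2 := by
    simp only [Fintype.card_sum, Fintype.card_fin]
    ring
  have hsum : (big a).sum = ∑ i, bb a i := by
    rw [← map_bb]
    rfl
  have hdiv : 12 ∣ ∑ i, bb a i := Finset.dvd_sum fun i _ => h12 i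
  have hge : 12 * (2 * n + 2) ≤ ∑ i, bb a i := by
    have h1 := Finset.card_nsmul_le_sum Finset.univ (bb a) 12 (fun i _ => hbig i)
    rw [Finset.card_univ, hcard, smul_eq_mul, mul_comm] at h1
    exact h1
  obtain ⟨N, hN⟩ : ∃ N, N = (big a).sum / 2 - 6 * n := ⟨_, rfl⟩
  have hseq : seq a = Finset.univ.val.map (bb a) + Multiset.replicate N 4 := by
    rw [map_bb, hN]
    rfl
  rw [hseq] at h
  have hN2 : ∑ i, bb a i + 4 * N + 12 = 6 * (Fintype.card (Fin n ⊕ Fin n ⊕ Fin 2) + N) := by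
    rw [hcard, hN, hsum]
    obtain ⟨q, hq⟩ := hdiv
    rw [hq] at hge ⊢
    omega
  obtain ⟨σ, hσ, hb⟩ := gne (Fin n ⊕ Fin n ⊕ Fin 2) (bb a) N
    (fun i => Dvd.dvd.trans (by norm_num) (h12 i)) (fun i => (by norm_num : 8 ≤ 12).trans (hbig i))
    hN2 h
  apply ari n a (fun i => σ (Sum.inl i)) (fun i => σ (Sum.inr (Sum.inl i)))
    (fun i => σ (Sum.inr (Sum.inr i))) (fun i => hσ _) (fun i => hσ _) (fun i => hσ _)
  rw [hcard, Fintype.sum_sum_type, Fintype.sum_sum_type, ← add_assoc] at hb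
  exact hb

end Pool.Agent.PDN.H17
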