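import Pool.Agent.PDN.Stmts

/-!
# Row SUB: edge subdivision
-/

set_option autoImplicit false

namespace Pool.Agent.PDN.H17

open Pool.Agent.PDN

variable {V : Type}

/-- both `u` and `v` are among `x, y, z` -/
def E (u v x y z : V) : Prop := (u = x ∨ u = y ∨ u = z) ∧ (v = x ∨ v = y ∨ v = z)

/-- the link of the new vertex -/
def L (u v a a' x y : V) : Prop :=
  (x = a ∧ y = u) ∨ (x = v ∧ y = a) ∨ (x = a' ∧ y = v) ∨ (x = u ∧ y = a')

/-- the new faces -/
def ff (T : Tri V) (u v a a' : V) : Option V → Option V → Option V → Prop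
  | some x, some y, some z => T.f x y z ∧ ¬ E u v x y z
  | none, some x, some y => L u v a a' x y
  | some x, some y, none => L u v a a' x y
  | some y, none, some x => L u v a a' x y
  | none, none, _ => False
  | none, some _, none => False
  | some _, none, none => False

/-- the configuration -/
structure Cf (T : Tri V) (u v a a' : V) : Prop where
  f1 : T.f u v a
  f2 : T.f v u a'
  na : a ≠ a'

namespace Cf

variable {T : Tri V} {u v a a' : V} (h : Cf T u v a a')
include h

theorem g1 : T.f v a u := T.cyc h.f1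
theorem g2 : T.f a u v := T.cyc h.g1
theorem g3 : T.f u a' v := T.cyc h.f2
theorem g4 : T.f a' v u := T.cyc h.g3
theorem n1 : u ≠ v := T.ne h.f1
theorem n2 : v ≠ a := T.ne h.g1
theorem n3 : a ≠ u := T.ne h.g2
theorem n4 : u ≠ a' := T.ne h.g3
theorem n5 : a' ≠ v := T.ne h.g4

theorem cases {x y z : V} (hf : T.f x y z) (hE : E u v x y z) :
    (x = u ∧ y = v ∧ z = a) ∨ (x = v ∧ y = a ∧ z = u) ∨ (x = a ∧ y = u ∧ z = v) ∨
    (x = v ∧ y = u ∧ z = a') ∨ (x = u ∧ y = a' ∧ z = v) ∨ (x = a' ∧ y = v ∧ z = u) := by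
  have hc1 := T.cyc hf
  have hc2 := T.cyc hc1
  have n := h.n1
  obtain ⟨h1, h2⟩ := hE
  rcases h1 with rfl | rfl | rfl
  · rcases h2 with rfl | rfl | rfl
    · exact absurd rfl n
    · exact Or.inl ⟨rfl, rfl, T.uniq hf h.f1⟩
    · exact Or.inr (Or.inr (Or.inr (Or.inr (Or.inl ⟨rfl, T.uniq hc2 h.f2, rfl⟩))))
  · rcases h2 with rfl | rfl | rfl
    · exact Or.inr (Or.inr (Or.inr (Or.inl ⟨rfl, rfl, T.uniq hf h.f2⟩)))
    · exact absurd rfl n
    · exact Or.inr (Or.inr (Or.inl ⟨T.uniq hc1 h.f1, rfl, rfl⟩))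
  · rcases h2 with rfl | rfl | rfl
    · exact Or.inr (Or.inl ⟨rfl, T.uniq hc2 h.f1, rfl⟩)
    · exact Or.inr (Or.inr (Or.inr (Or.inr (Or.inr ⟨T.uniq hc1 h.f2, rfl, rfl⟩))))
    · exact absurd rfl n

/-- the third vertex of the old face at an edge of the link of the new vertex -/
theorem L_old {x y : V} (hL : L u v a a' x y) : ∃ z, T.f x y z ∧ E u v x y z := by
  rcases hL with ⟨rfl, rfl⟩ | ⟨rfl, rfl⟩ | ⟨rfl, rfl⟩ | ⟨rfl, rfl⟩
  · exact ⟨v, h.g2, Or.inr (Or.inl rfl), Or.inr (Or.inr rfl)⟩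
  · exact ⟨u, h.g1, Or.inr (Or.inr rfl), Or.inl rfl⟩
  · exact ⟨u, h.g4, Or.inr (Or.inr rfl), Or.inr (Or.inl rfl)⟩
  · exact ⟨v, h.g3, Or.inl rfl, Or.inr (Or.inr rfl)⟩

theorem L_fun {x y y' : V} (h1 : L u v a a' x y) (h2 : L u v a a' x y') : y = y' := by
  have n1 := h.n1
  have n2 := h.n2
  have n3 := h.n3
  have n4 := h.n4
  have n5 := h.n5
  have n6 := h.na
  unfold L at h1 h2
  grind

theorem L_inj {x x' y : V} (h1 : L u v a a' x y) (h2 : L u v a a' x' y) : x = x' := by
  have n1 := h.n1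
  have n2 := h.n2
  have n3 := h.n3
  have n4 := h.n4
  have n5 := h.n5
  have n6 := h.na
  unfold L at h1 h2
  grind

theorem L_next {x y : V} (h1 : L u v a a' x y) : ∃ z, L u v a a' y z := by
  rcases h1 with ⟨rfl, rfl⟩ | ⟨rfl, rfl⟩ | ⟨rfl, rfl⟩ | ⟨rfl, rfl⟩
  · exact ⟨a', Or.inr (Or.inr (Or.inr ⟨rfl, rfl⟩))⟩
  · exact ⟨u, Or.inl ⟨rfl, rfl⟩⟩
  · exact ⟨a, Or.inr (Or.inl ⟨rfl, rfl⟩)⟩
  · exact ⟨v, Or.inr (Or.inr (Or.inl ⟨rfl, rfl⟩))⟩

theorem L_prev {x y : V} (h1 : L u v a a' x y) : ∃ z, L u v a a' z x := by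
  rcases h1 with ⟨rfl, rfl⟩ | ⟨rfl, rfl⟩ | ⟨rfl, rfl⟩ | ⟨rfl, rfl⟩
  · exact ⟨v, Or.inr (Or.inl ⟨rfl, rfl⟩)⟩
  · exact ⟨a', Or.inr (Or.inr (Or.inl ⟨rfl, rfl⟩))⟩
  · exact ⟨u, Or.inr (Or.inr (Or.inr ⟨rfl, rfl⟩))⟩
  · exact ⟨a, Or.inl ⟨rfl, rfl⟩⟩

omit h in
theorem au : L u v a a' a u := Or.inl ⟨rfl, rfl⟩
omit h in
theorem va : L u v a a' v a := Or.inr (Or.inl ⟨rfl, rfl⟩)
omit h in
theorem av : L u v a a' a' v := Or.inr (Or.inr (Or.inl ⟨rfl, rfl⟩))
omit h in
theorem ua : L u v a a' u a' := Or.inr (Or.inr (Or.inr ⟨rfl, rfl⟩))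

omit h in
theorem E_cyc {x y z : V} (hE : E u v y z x) : E u v x y z := by
  unfold E at hE ⊢
  tauto

omit h in
theorem cyc' : ∀ {p q r : Option V}, ff T u v a a' p q r → ff T u v a a' q r p
  | some _, some _, some _, h1 => ⟨T.cyc h1.1, fun hE => h1.2 (E_cyc hE)⟩
  | none, some _, some _, h1 => h1
  | some _, some _, none, h1 => h1
  | some _, none, some _, h1 => h1

theorem uniq' : ∀ {p q r r' : Option V}, ff T u v a a' p q r → ff T u v a a' p q r' → r = r'
  | some _, some _, some _, some _, h1, h2 => congrArg some (T.uniq h1.1 h2.1)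
  | some x, some y, some z, none, h1, h2 => by
    obtain ⟨w, hw, hE⟩ := h.L_old h2
    rw [T.uniq hw h1.1] at hE
    exact absurd hE h1.2
  | some x, some y, none, some z, h2, h1 => by
    obtain ⟨w, hw, hE⟩ := h.L_old h2
    rw [T.uniq hw h1.1] at hE
    exact absurd hE h1.2
  | some _, some _, none, none, _, _ => rfl
  | none, some _, some _, some _, h1, h2 => congrArg some (h.L_fun h1 h2)
  | some _, none, some _, some _, h1, h2 => congrArg some (h.L_inj h1 h2)

/-- an old edge different from `u v` is an edge -/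
theorem old_edge {x y z : V} (hf : T.f x y z) (h1 : ¬ (x = u ∧ y = v)) (h2 : ¬ (x = v ∧ y = u)) :
    ∃ r, ff T u v a a' (some x) (some y) r := by
  by_cases hE : E u v x y z
  · refine ⟨none, ?_⟩
    rcases h.cases hf hE with h3 | h3 | h3 | h3 | h3 | h3
    · exact absurd ⟨h3.1, h3.2.1⟩ h1
    · exact Or.inr (Or.inl ⟨h3.1, h3.2.1⟩)
    · exact Or.inl ⟨h3.1, h3.2.1⟩
    · exact absurd ⟨h3.1, h3.2.1⟩ h2
    · exact Or.inr (Or.inr (Or.inr ⟨h3.1, h3.2.1⟩))
    · exact Or.inr (Or.inr (Or.inl ⟨h3.1, h3.2.1⟩))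
  · exact ⟨some z, hf, hE⟩

theorem edge_old {x y : V} {r : Option V} (hf : ff T u v a a' (some x) (some y) r) :
    (∃ z, T.f x y z) ∧ ¬ (x = u ∧ y = v) ∧ ¬ (x = v ∧ y = u) := by
  cases r with
  | some z =>
    refine ⟨⟨z, hf.1⟩, ?_, ?_⟩
    · rintro ⟨rfl, rfl⟩
      exact hf.2 ⟨Or.inl rfl, Or.inr (Or.inl rfl)⟩
    · rintro ⟨rfl, rfl⟩
      exact hf.2 ⟨Or.inr (Or.inl rfl), Or.inl rfl⟩
  | none =>
    obtain ⟨z, hz, _⟩ := h.L_old hf
    have n1 := h.n1
    have n2 := h.n2
    have n3 := h.n3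
    have n4 := h.n4
    have n5 := h.n5
    refine ⟨⟨z, hz⟩, ?_, ?_⟩
    · rintro ⟨rfl, rfl⟩
      have h1 : L x y a a' x y := hf
      unfold L at h1
      grind
    · rintro ⟨rfl, rfl⟩
      have h1 : L y x a a' x y := hf
      unfold L at h1
      grind

theorem opp' : ∀ {p q r : Option V}, ff T u v a a' p q r → ∃ r', ff T u v a a' q p r'
  | some x, some y, r, h1 => by
    obtain ⟨⟨z, hz⟩, h2, h3⟩ := h.edge_old h1
    obtain ⟨w, hw⟩ := T.opp hz
    exact h.old_edge hw (fun h4 => h3 ⟨h4.2, h4.1⟩) (fun h4 => h2 ⟨h4.2, h4.1⟩)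
  | none, some x, some y, h1 => by
    obtain ⟨z, hz⟩ := h.L_prev h1
    exact ⟨some z, hz⟩
  | some y, none, some x, h1 => by
    obtain ⟨z, hz⟩ := h.L_next h1
    exact ⟨some z, hz⟩

theorem ne' : ∀ {p q r : Option V}, ff T u v a a' p q r → p ≠ q
  | some x, some y, r, h1 => by
    obtain ⟨⟨z, hz⟩, _, _⟩ := h.edge_old h1
    intro h2
    exact T.ne hz (Option.some.inj h2)
  | none, some x, some y, _ => by
    intro h2
    exact absurd h2 (by simp)
  | some y, none, some x, _ => by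
    intro h2
    exact absurd h2 (by simp)

open Classical in
omit h in
/-- the neighbour of `x` which replaces the neighbour `y` -/
noncomputable def ph (u v x y : V) : Option V :=
  if (x = u ∧ y = v) ∨ (x = v ∧ y = u) then none else some y

omit h in
theorem ph_none {x y : V} (h1 : (x = u ∧ y = v) ∨ (x = v ∧ y = u)) : ph u v x y = none := by
  unfold ph
  rw [if_pos h1]

omit h in
theorem ph_some {x y : V} (h1 : ¬ ((x = u ∧ y = v) ∨ (x = v ∧ y = u))) :
    ph u v x y = some y := by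
  unfold ph
  rw [if_neg h1]

/-- the images of an old pair of consecutive neighbours -/
theorem step {x y z : V} (hf : T.f x y z) :
    Relation.ReflTransGen (ff T u v a a' (some x)) (ph u v x y) (ph u v x z) ∧
      ∃ r, ff T u v a a' (some x) (ph u v x y) r := by
  have n1 := h.n1
  have n2 := h.n2
  have n3 := h.n3
  have n4 := h.n4
  have n5 := h.n5
  by_cases hE : E u v x y z
  · rcases h.cases hf hE with ⟨rfl, rfl, rfl⟩ | ⟨rfl, rfl, rfl⟩ | ⟨rfl, rfl, rfl⟩ |
      ⟨rfl, rfl, rfl⟩ | ⟨rfl, rfl, rfl⟩ | ⟨rfl, rfl, rfl⟩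
    · rw [ph_none (Or.inl ⟨rfl, rfl⟩), ph_some (by grind)]
      have h1 : ff T x y z a' (some x) none (some z) := au
      exact ⟨Relation.ReflTransGen.single h1, _, h1⟩
    · rw [ph_none (y := z) (Or.inr ⟨rfl, rfl⟩), ph_some (y := y) (by grind)]
      have h1 : ff T z x y a' (some x) (some y) none := va
      exact ⟨Relation.ReflTransGen.single h1, _, h1⟩
    · rw [ph_some (y := y) (by grind), ph_some (y := z) (by grind)]
      have h1 : ff T y z x a' (some x) (some y) none := au
      have h2 : ff T y z x a' (some x) none (some z) := va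
      exact ⟨(Relation.ReflTransGen.single h1).tail h2, _, h1⟩
    · rw [ph_none (Or.inr ⟨rfl, rfl⟩), ph_some (by grind)]
      have h1 : ff T y x a z (some x) none (some z) := av
      exact ⟨Relation.ReflTransGen.single h1, _, h1⟩
    · rw [ph_none (y := z) (Or.inl ⟨rfl, rfl⟩), ph_some (y := y) (by grind)]
      have h1 : ff T x z a y (some x) (some y) none := ua
      exact ⟨Relation.ReflTransGen.single h1, _, h1⟩
    · rw [ph_some (y := y) (by grind), ph_some (y := z) (by grind)]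
      have h1 : ff T z y a x (some x) (some y) none := av
      have h2 : ff T z y a x (some x) none (some z) := ua
      exact ⟨(Relation.ReflTransGen.single h1).tail h2, _, h1⟩
  · have h1 : ph u v x y = some y := ph_some (by
      rintro (⟨rfl, rfl⟩ | ⟨rfl, rfl⟩)
      · exact hE ⟨Or.inl rfl, Or.inr (Or.inl rfl)⟩
      · exact hE ⟨Or.inr (Or.inl rfl), Or.inl rfl⟩)
    have h2 : ph u v x z = some z := ph_some (by
      rintro (⟨rfl, rfl⟩ | ⟨rfl, rfl⟩)
      · exact hE ⟨Or.inl rfl, Or.inr (Or.inr rfl)⟩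
      · exact hE ⟨Or.inr (Or.inr rfl), Or.inl rfl⟩)
    rw [h1, h2]
    have h3 : ff T u v a a' (some x) (some y) (some z) := ⟨hf, hE⟩
    exact ⟨Relation.ReflTransGen.single h3, _, h3⟩

/-- the neighbours of an old vertex different from `a`, `a'` -/
theorem nb {x : V} {q r : Option V} (hf : ff T u v a a' (some x) q r)
    (hx : q = none → x ≠ a ∧ x ≠ a') : ∃ y, (∃ z, T.f x y z) ∧ ph u v x y = q := by
  cases q with
  | some y =>
    obtain ⟨h1, h2, h3⟩ := h.edge_old hf
    exact ⟨y, h1, ph_some (by tauto)⟩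
  | none =>
    obtain ⟨hx1, hx2⟩ := hx rfl
    cases r with
    | none => exact absurd hf (by exact fun h => h)
    | some w =>
      have h1 : L u v a a' w x := hf
      rcases h1 with h1 | h1 | h1 | h1
      · exact ⟨v, ⟨a, by rw [h1.2]; exact h.f1⟩, ph_none (Or.inl ⟨h1.2, rfl⟩)⟩
      · exact absurd h1.2 hx1
      · exact ⟨u, ⟨a', by rw [h1.2]; exact h.f2⟩, ph_none (Or.inr ⟨h1.2, rfl⟩)⟩
      · exact absurd h1.2 hx2

theorem link_old {x y y' : V} (h1 : ∃ z, T.f x y z) (h2 : ∃ z, T.f x y' z) :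
    Relation.ReflTransGen (ff T u v a a' (some x)) (ph u v x y) (ph u v x y') := by
  have h3 := T.link h1 h2
  induction h3 with
  | refl => exact Relation.ReflTransGen.refl
  | @tail y₁ y₂ hy hs ih =>
    obtain ⟨z, hz⟩ := T.opp (T.cyc (T.cyc hs))
    exact (ih ⟨y₂, hs⟩).trans (h.step hs).1

theorem to_old {x : V} {q r : Option V} (hf : ff T u v a a' (some x) q r) :
    (∃ y, (∃ z, T.f x y z) ∧
      Relation.ReflTransGen (ff T u v a a' (some x)) q (ph u v x y)) ∧
    ∃ y, (∃ z, T.f x y z) ∧ Relation.ReflTransGen (ff T u v a a' (some x)) (ph u v x y) q := by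
  by_cases hx : q = none → x ≠ a ∧ x ≠ a'
  · obtain ⟨y, hy, hq⟩ := h.nb hf hx
    rw [← hq]
    exact ⟨⟨y, hy, Relation.ReflTransGen.refl⟩, y, hy, Relation.ReflTransGen.refl⟩
  · have n1 := h.n1
    have n2 := h.n2
    have n3 := h.n3
    have n4 := h.n4
    have n5 := h.n5
    rw [Classical.not_imp] at hx
    obtain ⟨rfl, hx2⟩ := hx
    have h3 : x = a ∨ x = a' := by tauto
    rcases h3 with rfl | rfl
    · have h4 : ff T u v x a' (some x) none (some v) := va
      have h5 : ff T u v x a' (some x) (some u) none := au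
      refine ⟨⟨v, ?_, ?_⟩, u, ⟨v, h.g2⟩, ?_⟩
      · obtain ⟨z, hz⟩ := T.opp h.g1
        exact ⟨z, hz⟩
      · rw [ph_some (by grind)]
        exact Relation.ReflTransGen.single h4
      · rw [ph_some (by grind)]
        exact Relation.ReflTransGen.single h5
    · have h4 : ff T u v a x (some x) none (some u) := ua
      have h5 : ff T u v a x (some x) (some v) none := av
      refine ⟨⟨u, ?_, ?_⟩, v, ⟨u, h.g4⟩, ?_⟩
      · obtain ⟨z, hz⟩ := T.opp h.g3
        exact ⟨z, hz⟩
      · rw [ph_some (by grind)]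
        exact Relation.ReflTransGen.single h4
      · rw [ph_some (by grind)]
        exact Relation.ReflTransGen.single h5

theorem link' : ∀ {p q r : Option V}, (∃ z, ff T u v a a' p q z) → (∃ z, ff T u v a a' p r z) →
    Relation.ReflTransGen (ff T u v a a' p) q r
  | some x, q, r, ⟨z, hz⟩, ⟨w, hw⟩ => by
    obtain ⟨⟨y, hy, h1⟩, _⟩ := h.to_old hz
    obtain ⟨_, y', hy', h2⟩ := h.to_old hw
    exact (h1.trans (h.link_old hy hy')).trans h2
  | none, some x, some y, ⟨some z, hz⟩, ⟨some w, hw⟩ => by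
    have s1 : ff T u v a a' none (some a) (some u) := au
    have s2 : ff T u v a a' none (some v) (some a) := va
    have s3 : ff T u v a a' none (some a') (some v) := av
    have s4 : ff T u v a a' none (some u) (some a') := ua
    have r1 := Relation.ReflTransGen.single s1
    have r2 := Relation.ReflTransGen.single s2
    have r3 := Relation.ReflTransGen.single s3
    have r4 := Relation.ReflTransGen.single s4
    have c1 : ∀ x, L u v a a' x z → Relation.ReflTransGen (ff T u v a a' none) (some x) (some u) := by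
      rintro x (⟨rfl, _⟩ | ⟨rfl, _⟩ | ⟨rfl, _⟩ | ⟨rfl, _⟩)
      · exact r1
      · exact r2.trans r1
      · exact r3.trans (r2.trans r1)
      · exact Relation.ReflTransGen.refl
    have c2 : ∀ y, L u v a a' y w → Relation.ReflTransGen (ff T u v a a' none) (some u) (some y) := by
      rintro y (⟨rfl, _⟩ | ⟨rfl, _⟩ | ⟨rfl, _⟩ | ⟨rfl, _⟩)
      · exact r4.trans (r3.trans r2)
      · exact r4.trans r3
      · exact r4
      · exact Relation.ReflTransGen.refl
    exact (c1 x hz).trans (c2 y hw)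

/-- the subdivided triangulation -/
def tri : Tri (Option V) where
  f := ff T u v a a'
  cyc := cyc'
  uniq := h.uniq'
  opp := h.opp'
  ne := h.ne'
  link := h.link'

/-- the adjacency of the old vertices -/
theorem adj_ph {x y : V} : T.Adj x y → (tri h).Adj (some x) (ph u v x y) := by
  rintro ⟨z, hz⟩
  exact (h.step hz).2

theorem adj_some {x y : V} : (tri h).Adj (some x) (some y) ↔
    T.Adj x y ∧ ¬ ((x = u ∧ y = v) ∨ (x = v ∧ y = u)) := by
  constructor
  · rintro ⟨r, hr⟩
    obtain ⟨h1, h2, h3⟩ := h.edge_old hr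
    exact ⟨h1, by tauto⟩
  · rintro ⟨h1, h2⟩
    have h3 := h.adj_ph h1
    rwa [ph_some h2] at h3

omit h in
theorem ph_inj {x y y' : V} (n : u ≠ v) (h1 : ph u v x y = ph u v x y') : y = y' := by
  by_cases c : (x = u ∧ y = v) ∨ (x = v ∧ y = u)
  · by_cases c' : (x = u ∧ y' = v) ∨ (x = v ∧ y' = u)
    · grind
    · rw [ph_none c, ph_some c'] at h1
      exact absurd h1 (by simp)
  · by_cases c' : (x = u ∧ y' = v) ∨ (x = v ∧ y' = u)
    · rw [ph_some c, ph_none c'] at h1
      exact absurd h1 (by simp)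
    · rw [ph_some c, ph_some c'] at h1
      exact Option.some.inj h1

theorem deg_eq {x : V} (h1 : x ≠ a) (h2 : x ≠ a') : (tri h).deg (some x) = T.deg x := by
  unfold Tri.deg
  symm
  refine Nat.card_congr (Equiv.ofBijective
    (fun y : {y : V // T.Adj x y} => (⟨ph u v x y.1, h.adj_ph y.2⟩ :
      {q : Option V // (tri h).Adj (some x) q})) ⟨?_, ?_⟩)
  · rintro ⟨y, hy⟩ ⟨y', hy'⟩ he
    exact Subtype.ext (ph_inj h.n1 (congrArg Subtype.val he))
  · rintro ⟨q, r, hr⟩
    obtain ⟨y, hy, hq⟩ := h.nb (x := x) (q := q) (r := r) hr (fun _ => ⟨h1, h2⟩)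
    exact ⟨⟨y, hy⟩, Subtype.ext hq⟩

omit h in
theorem card_opt [Finite V] (p : Option V → Prop) (hp : p none) :
    Nat.card {q // p q} = Nat.card {y : V // p (some y)} + 1 := by
  have e : {q // p q} ≃ Option {y : V // p (some y)} :=
    { toFun := fun q => match q with
        | ⟨none, _⟩ => none
        | ⟨some y, hy⟩ => some ⟨y, hy⟩
      invFun := fun q => match q with
        | none => ⟨none, hp⟩
        | some y => ⟨some y.1, y.2⟩
      left_inv := by
        rintro ⟨_ | y, hy⟩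
        · rfl
        · rfl
      right_inv := by
        rintro (_ | y)
        · rfl
        · rfl }
  rw [Nat.card_congr e, Finite.card_option]

theorem deg_add [Finite V] {x : V} (h1 : x = a ∨ x = a') :
    (tri h).deg (some x) = T.deg x + 1 := by
  have n1 := h.n1
  have n2 := h.n2
  have n3 := h.n3
  have n4 := h.n4
  have n5 := h.n5
  have hn : (tri h).Adj (some x) none := by
    rcases h1 with rfl | rfl
    · exact ⟨some v, va⟩
    · exact ⟨some u, ua⟩
  unfold Tri.deg
  rw [card_opt _ hn]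
  congr 1
  refine Nat.card_congr (Equiv.subtypeEquivRight fun y => ?_)
  rw [h.adj_some]
  constructor
  · exact fun h2 => h2.1
  · intro h2
    refine ⟨h2, ?_⟩
    rcases h1 with rfl | rfl <;> grind

theorem adj_none {y : V} : (tri h).Adj none (some y) ↔ y = u ∨ y = v ∨ y = a ∨ y = a' := by
  constructor
  · rintro ⟨r, hr⟩
    cases r with
    | none => exact absurd hr (by exact fun h => h)
    | some w =>
      have h1 : L u v a a' y w := hr
      unfold L at h1
      tauto
  · rintro (rfl | rfl | rfl | rfl)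
    · exact ⟨some a', ua⟩
    · exact ⟨some a, va⟩
    · exact ⟨some u, au⟩
    · exact ⟨some v, av⟩

theorem deg_none [Finite V] : (tri h).deg none = 4 := by
  classical
  have n1 := h.n1
  have n2 := h.n2
  have n3 := h.n3
  have n4 := h.n4
  have n5 := h.n5
  have n6 := h.na
  unfold Tri.deg
  have e : {q : Option V // (tri h).Adj none q} ≃ {y : V // y ∈ ({u, v, a, a'} : Finset V)} :=
    { toFun := fun q => match q with
        | ⟨none, hq⟩ => absurd rfl ((tri h).adj_ne hq)
        | ⟨some y, hy⟩ => ⟨y, by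
            have := h.adj_none.1 hy
            simpa using this⟩
      invFun := fun y => ⟨some y.1, h.adj_none.2 (by
        obtain ⟨y, hy⟩ := y
        simpa using hy)⟩
      left_inv := by
        rintro ⟨_ | y, hy⟩
        · exact absurd rfl ((tri h).adj_ne hy)
        · rfl
      right_inv := by
        rintro ⟨y, hy⟩
        rfl }
  rw [Nat.card_congr e, Nat.card_eq_fintype_card, Fintype.card_coe]
  rw [Finset.card_insert_of_notMem, Finset.card_insert_of_notMem, Finset.card_insert_of_notMem,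
    Finset.card_singleton]
  · simpa using n6
  · simp only [Finset.mem_insert, Finset.mem_singleton, not_or]
    exact ⟨n2, n5.symm⟩
  · simp only [Finset.mem_insert, Finset.mem_singleton, not_or]
    exact ⟨n1, n3.symm, n4⟩

theorem conn (hc : T.graph.Connected) : (tri h).graph.Connected := by
  have hu : (tri h).graph.Adj none (some u) := h.adj_none.2 (Or.inl rfl)
  have hv : (tri h).graph.Adj none (some v) := h.adj_none.2 (Or.inr (Or.inl rfl))
  have h1 : ∀ x y : V, T.graph.Adj x y → (tri h).graph.Reachable (some x) (some y) := by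
    intro x y hxy
    by_cases c : (x = u ∧ y = v) ∨ (x = v ∧ y = u)
    · rcases c with ⟨rfl, rfl⟩ | ⟨rfl, rfl⟩
      · exact hu.symm.reachable.trans hv.reachable
      · exact hv.symm.reachable.trans hu.reachable
    · have h2 : (tri h).graph.Adj (some x) (some y) := h.adj_some.2 ⟨hxy, c⟩
      exact h2.reachable
  have h2 : ∀ x y : V, (tri h).graph.Reachable (some x) (some y) := by
    intro x y
    obtain ⟨w⟩ := hc.preconnected x y
    induction w with
    | nil => exact SimpleGraph.Reachable.refl _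
    | cons hxy _ ih => exact (h1 _ _ hxy).trans ih
  have h3 : ∀ q : Option V, (tri h).graph.Reachable (some u) q := by
    rintro (_ | y)
    · exact hu.symm.reachable
    · exact h2 u y
  have : Nonempty (Option V) := ⟨none⟩
  exact ⟨fun p q => (h3 p).symm.trans (h3 q)⟩

end Cf

/-- SUB -/
theorem sub : SubStmt := by
  intro V _ T u v a a' h1 h2 h3
  have h : Cf T u v a a' := ⟨h1, h2, h3⟩
  refine ⟨Cf.tri h, fun x y z hf hE => ⟨hf, hE⟩, Cf.au, Cf.va, Cf.av, Cf.ua,
    fun x hx hx' => h.deg_eq hx hx', h.deg_add (Or.inl rfl), h.deg_add (Or.inr rfl), h.deg_none,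
    h.conn⟩

end Pool.Agent.PDN.H17
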